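import Pool.Agent.H174.GP.StA
import Pool.Graph.R_pool_sql_team_seeded_3997aac3.Q102.ErdosGallai

/-!
Subtask of project GP (helper174): Erdős–Gallai, sufficiency, in the form `S_EGs`.
The theorem itself is `Pool.Agent.Q102.EG.erdos_gallai` of the read-only library; here it is only
restated in the indexing of the project.
-/

open Finset

namespace Pool.Agent.H84.GP174

theorem gp_egs : Pool.Agent.H174.GP.S_EGs := by
  classical
  intro n d hd h
  obtain ⟨hpar, hk⟩ := h
  have hEG : Pool.Agent.Q102.EG.EGCond d := by
    intro r
    have h1 := hk (r.val + 1) r.isLt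
    have e1 : (univ.filter (fun i : Fin n => (i : ℕ) < r.val + 1)) = Finset.Iic r := by
      ext i
      simp only [mem_filter, mem_univ, true_and, mem_Iic, Fin.le_def]
      omega
    have e2 : (univ.filter (fun i : Fin n => r.val + 1 ≤ (i : ℕ))) = Finset.Ioi r := by
      ext i
      simp only [mem_filter, mem_univ, true_and, mem_Ioi, Fin.lt_def]
      omega
    rw [e1, e2] at h1
    simpa using h1
  obtain ⟨G, hG⟩ := Pool.Agent.Q102.EG.erdos_gallai hd hEG hpar
  refine ⟨G, Classical.decRel _, fun v => ?_⟩
  rw [← hG v]

end Pool.Agent.H84.GP174
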