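import Pool.Agent.H174.GP.StP

/-!
Subtask of project GP (helper174): the coarse sequence is measure preserving (`S_Zmp`).
-/

open MeasureTheory ProbabilityTheory Finset
open scoped ENNReal

namespace Pool.Agent.H84.GP174

open Pool.Agent.H174.GP

/-- Starting points of the blocks. -/
def st (m : ℕ → ℕ) (i : ℕ) : ℕ := ∑ l ∈ range i, m l

theorem st_mono (m : ℕ → ℕ) : Monotone (st m) := by
  apply monotone_nat_of_le_succ
  intro n
  unfold st
  rw [Finset.sum_range_succ]
  omega

/-- The block embedding. -/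
def emb (m : ℕ → ℕ) (p : (i : ℕ) × Fin (m i)) : ℕ := st m p.1 + p.2

theorem emb_inj (m : ℕ → ℕ) : Function.Injective (emb m) := by
  have key : ∀ (i i' : ℕ) (j : Fin (m i)) (j' : Fin (m i')), i < i' →
      st m i + (j : ℕ) < st m i' + (j' : ℕ) := by
    intro i i' j j' h
    have h1 : st m (i + 1) ≤ st m i' := st_mono m h
    have h2 : st m (i + 1) = st m i + m i := by
      unfold st
      rw [Finset.sum_range_succ]
    have := j.isLt
    omega
  rintro ⟨i, j⟩ ⟨i', j'⟩ h
  change st m i + (j : ℕ) = st m i' + (j' : ℕ) at h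
  rcases lt_trichotomy i i' with hlt | heq | hgt
  · have := key i i' j j' hlt
    omega
  · subst heq
    have : j = j' := Fin.ext (by omega)
    rw [this]
  · have := key i' i j' j hgt
    omega

/-- The law of a sum of `m` independent Laplace variables. -/
noncomputable def LL (m : ℕ) : Measure ℝ :=
  (Measure.infinitePi (fun _ : Fin m => lap)).map (fun v => ∑ j, v j)

theorem LL_eq (m a : ℕ) : PP.map (fun ω => ∑ j : Fin m, ω (a + j)) = LL m := by
  have h := Measure.map_infinitePi_infinitePi_of_inj (P := fun _ : ℕ => lap)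
    (f := fun j : Fin m => a + (j : ℕ)) (fun x y hxy => Fin.ext (by
      change a + (x : ℕ) = a + (y : ℕ) at hxy
      omega))
  unfold LL PP
  rw [← h, Measure.map_map (by fun_prop) (by fun_prop)]
  rfl

theorem blocks (m : ℕ → ℕ) (c : ℕ → ℝ) :
    PP.map (fun ω i => (∑ j : Fin (m i), ω (st m i + j)) / c i) =
      Measure.infinitePi (fun i => (LL (m i)).map (fun x => x / c i)) := by
  have h := Measure.map_infinitePi_infinitePi_of_inj (P := fun _ : ℕ => lap) (emb_inj m)
  have h2 := Measure.infinitePi_map_piCurry (κ := fun i => Fin (m i)) (X := fun _ _ => ℝ)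
    (fun (_ : ℕ) (_ : Fin (m _)) => lap)
  have h3 := Measure.infinitePi_map_pi (fun i : ℕ => Measure.infinitePi (fun _ : Fin (m i) => lap))
    (f := fun i v => (∑ j, v j) / c i) (by fun_prop)
  rw [← h2, ← h, Measure.map_map (by fun_prop) (by fun_prop),
    Measure.map_map (by fun_prop) (by fun_prop)] at h3
  have h4 : ∀ i, (LL (m i)).map (fun x => x / c i) =
      (Measure.infinitePi (fun _ : Fin (m i) => lap)).map (fun v => (∑ j, v j) / c i) := by
    intro i
    unfold LL
    rw [Measure.map_map (by fun_prop) (by fun_prop)]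
    rfl
  simp only [h4]
  rw [← h3]
  rfl

theorem LL_one : LL 1 = lap := by
  rw [← LL_eq 1 0]
  have h := Measure.infinitePi_map_eval (fun _ : ℕ => lap) 0
  rw [← h]
  unfold PP
  congr 1
  funext ω
  simp

theorem S_eq_range (ω : ℕ → ℝ) (m : ℕ) : S ω m = ∑ j ∈ range m, ω (1 + j) := by
  unfold S
  have h : Icc 1 m = Ico 1 (m + 1) := by
    ext x
    simp only [mem_Icc, mem_Ico]
    omega
  rw [h, Finset.sum_Ico_eq_sum_range, Nat.add_sub_cancel]

theorem S_eq_sum (ω : ℕ → ℝ) (m : ℕ) : S ω m = ∑ j : Fin m, ω (1 + j) := by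
  rw [S_eq_range, Fin.sum_univ_eq_sum_range (fun j => ω (1 + j)) m]

theorem S_sub (ω : ℕ → ℝ) (a b : ℕ) : S ω (a + b) - S ω a = ∑ j : Fin b, ω (1 + a + j) := by
  rw [S_eq_range, S_eq_range, Finset.sum_range_add, add_sub_cancel_left,
    Fin.sum_univ_eq_sum_range (fun j => ω (1 + a + j)) b]
  exact Finset.sum_congr rfl fun j _ => by rw [add_assoc]

theorem meas_S (m : ℕ) : Measurable (fun ω : ℕ → ℝ => S ω m) := by
  unfold S
  fun_prop

theorem LL_q (K k : ℕ) (B : Set ℝ) (hB : MeasurableSet B) :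
    ((LL (k + 1)).map (fun x => x / Real.sqrt K)) B = PP {ω | S ω (k + 1) / Real.sqrt K ∈ B} := by
  rw [← LL_eq (k + 1) 1, Measure.map_map (by fun_prop) (by fun_prop),
    Measure.map_apply (by fun_prop) hB]
  congr 1
  ext ω
  simp only [Set.mem_preimage, Function.comp, Set.mem_ofPred_eq, S_eq_sum]

/-- Block lengths for given times. -/
def mm (g : ℕ → ℕ) (i : ℕ) : ℕ := if i = 0 then 1 else g (i - 1) + 1

/-- Normalisation. -/
noncomputable def cc (K : ℕ) (i : ℕ) : ℝ := if i = 0 then 1 else Real.sqrt K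

theorem st_mm (g : ℕ → ℕ) (i : ℕ) : st (mm g) (i + 1) = 1 + tau g i := by
  unfold st tau
  rw [Finset.sum_range_succ']
  simp only [mm, Nat.add_sub_cancel, Nat.add_eq_zero_iff, one_ne_zero, and_false, if_false, if_true]
  omega

theorem Z_eq (K : ℕ) (ω : ℕ → ℝ) (g : ℕ → ℕ) (i : ℕ) :
    Z K (ω, g) i = (∑ j : Fin (mm g i), ω (st (mm g) i + j)) / cc K i := by
  rcases i with _ | i
  · simp [Z, mm, cc, st]
  · have h1 : tau g (i + 1) = tau g i + mm g (i + 1) := by
      unfold tau
      rw [Finset.sum_range_succ]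
      rfl
    rw [st_mm, ← S_sub, ← h1]
    simp [Z, cc]

theorem fixed_g (K : ℕ) (g : ℕ → ℕ) (s : Finset ℕ) (t : ℕ → Set ℝ) (ht : ∀ i, MeasurableSet (t i)) :
    PP {ω | ∀ i ∈ s, Z K (ω, g) i ∈ t i} =
      ∏ i ∈ s, ((LL (mm g i)).map (fun x => x / cc K i)) (t i) := by
  have hpm : ∀ i, IsProbabilityMeasure ((LL (mm g i)).map (fun x => x / cc K i)) := by
    intro i
    unfold LL
    rw [Measure.map_map (by fun_prop) (by fun_prop)]
    exact Measure.isProbabilityMeasure_map (by fun_prop)
  have h := Measure.infinitePi_pi (fun i => (LL (mm g i)).map (fun x => x / cc K i)) (s := s) (t := t)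
    (fun i _ => ht i)
  rw [← h, ← blocks, Measure.map_apply (by fun_prop)
    (MeasurableSet.pi s.countable_toSet fun i _ => ht i)]
  congr 1
  ext ω
  simp only [Set.mem_ofPred_eq, Set.mem_preimage, Set.mem_pi, Finset.mem_coe, Z_eq]

theorem meas_Z (K : ℕ) : Measurable (fun p : (ℕ → ℝ) × (ℕ → ℕ) => (fun i => Z K p i)) := by
  have hS : Measurable (fun q : (ℕ → ℝ) × ℕ => S q.1 q.2) :=
    measurable_from_prod_countable_left fun m => meas_S m
  have htau : ∀ i, Measurable (fun g : ℕ → ℕ => tau g i) := by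
    intro i
    unfold tau
    fun_prop
  rw [measurable_pi_iff]
  intro i
  unfold Z
  rcases i with _ | i
  · simp only [if_true]
    fun_prop
  · simp only [Nat.add_eq_zero_iff, one_ne_zero, and_false, if_false]
    have h1 : Measurable (fun p : (ℕ → ℝ) × (ℕ → ℕ) => S p.1 (tau p.2 (i + 1))) :=
      hS.comp (measurable_fst.prodMk ((htau (i + 1)).comp measurable_snd))
    have h2 : Measurable (fun p : (ℕ → ℝ) × (ℕ → ℕ) => S p.1 (tau p.2 (i + 1 - 1))) :=
      hS.comp (measurable_fst.prodMk ((htau (i + 1 - 1)).comp measurable_snd))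
    exact (h1.sub h2).div_const _

/-- The mixed probability. -/
noncomputable def qq (K : ℕ) (B : Set ℝ) (k : ℕ) : ℝ≥0∞ := PP {ω | S ω (k + 1) / Real.sqrt K ∈ B}

theorem int_qq (h1 : S_Z1) (K : ℕ) (hK : 1 ≤ K) (B : Set ℝ) (hB : MeasurableSet B) (i : ℕ) :
    ∫⁻ g, qq K B (g i) ∂(GG K) = lap B := by
  have h2 := (measurePreserving_eval_infinitePi (fun _ : ℕ => geometricMeasure (pK K)) i).lintegral_comp
    (f := qq K B) (measurable_of_countable _)
  have h3 := h1 K B hK hB
  unfold GG
  rw [h2, lintegral_countable', ← h3]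
  exact tsum_congr fun k => mul_comm _ _

theorem prod_box (h1 : S_Z1) (K : ℕ) (hK : 1 ≤ K) (N : ℕ) (t : ℕ → Set ℝ)
    (ht : ∀ i, MeasurableSet (t i)) :
    (PP.prod (GG K)) {p | ∀ i ∈ range (N + 1), Z K p i ∈ t i} = ∏ i ∈ range (N + 1), lap (t i) := by
  have hms : MeasurableSet {p : (ℕ → ℝ) × (ℕ → ℕ) | ∀ i ∈ range (N + 1), Z K p i ∈ t i} := by
    have h2 : {p : (ℕ → ℝ) × (ℕ → ℕ) | ∀ i ∈ range (N + 1), Z K p i ∈ t i} =
        (fun p : (ℕ → ℝ) × (ℕ → ℕ) => (fun i => Z K p i)) ⁻¹' (Set.pi (range (N + 1) : Finset ℕ) t) := by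
      ext p
      simp only [Set.mem_ofPred_eq, Set.mem_preimage, Set.mem_pi, Finset.mem_coe]
    rw [h2]
    exact (meas_Z K) (MeasurableSet.pi (range (N + 1)).countable_toSet fun i _ => ht i)
  rw [Measure.prod_apply_symm hms]
  have h3 : ∀ g : ℕ → ℕ, PP ((fun ω => (ω, g)) ⁻¹'
      {p : (ℕ → ℝ) × (ℕ → ℕ) | ∀ i ∈ range (N + 1), Z K p i ∈ t i}) =
      (∏ i ∈ range N, qq K (t (i + 1)) (g i)) * lap (t 0) := by
    intro g
    have h4 := fixed_g K g (range (N + 1)) t ht
    rw [Finset.prod_range_succ'] at h4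
    have h5 : ((LL (mm g 0)).map (fun x => x / cc K 0)) (t 0) = lap (t 0) := by
      have h6 : mm g 0 = 1 := rfl
      have h7 : (fun x : ℝ => x / cc K 0) = id := by
        funext x
        simp [cc]
      rw [h6, h7, Measure.map_id, LL_one]
    have h6 : ∀ i, ((LL (mm g (i + 1))).map (fun x => x / cc K (i + 1))) (t (i + 1)) =
        qq K (t (i + 1)) (g i) := by
      intro i
      have := LL_q K (g i) (t (i + 1)) (ht _)
      exact this
    rw [h5] at h4
    simp only [h6] at h4
    exact h4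
  simp only [h3]
  rw [lintegral_mul_const' _ _ (measure_ne_top _ _), Finset.prod_range_succ']
  congr 1
  have h8 : iIndepFun (fun (i : ℕ) (g : ℕ → ℕ) => qq K (t (i + 1)) (g i)) (GG K) := by
    unfold GG
    exact iIndepFun_infinitePi (fun i => measurable_of_countable (qq K (t (i + 1))))
  rw [lintegral_prod_eq_prod_lintegral_of_indepFun _ _ h8
    (fun i => (measurable_of_countable (qq K (t (i + 1)))).comp (measurable_pi_apply i))]
  exact Finset.prod_congr rfl fun i _ => int_qq h1 K hK _ (ht _) i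

theorem gp_zmp (h1 : S_Z1) : Pool.Agent.H174.GP.S_Zmp := by
  classical
  intro K hK
  refine ⟨meas_Z K, ?_⟩
  unfold PP
  apply Measure.eq_infinitePi
  intro s t ht
  rw [Measure.map_apply (meas_Z K) (MeasurableSet.pi s.countable_toSet fun i _ => ht i)]
  let t' : ℕ → Set ℝ := fun i => if i ∈ s then t i else Set.univ
  have ht' : ∀ i, MeasurableSet (t' i) := by
    intro i
    change MeasurableSet (if i ∈ s then t i else Set.univ)
    split_ifs
    · exact ht i
    · exact MeasurableSet.univ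
  have hsub : s ⊆ range (s.sup id + 1) := Finset.subset_range_sup_succ s
  have h2 := prod_box h1 K hK (s.sup id) t' ht'
  have h3 : (fun p : (ℕ → ℝ) × (ℕ → ℕ) => (fun i => Z K p i)) ⁻¹' (Set.pi (s : Set ℕ) t) =
      {p | ∀ i ∈ range (s.sup id + 1), Z K p i ∈ t' i} := by
    ext p
    simp only [Set.mem_ofPred_eq, Set.mem_preimage, Set.mem_pi, Finset.mem_coe]
    constructor
    · intro h i _
      change Z K p i ∈ (if i ∈ s then t i else Set.univ)
      split_ifs with his
      · exact h i his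
      · exact Set.mem_univ _
    · intro h i his
      have h4 : Z K p i ∈ (if i ∈ s then t i else Set.univ) := h i (hsub his)
      rw [if_pos his] at h4
      exact h4
  rw [h3]
  unfold PP at h2
  rw [h2, ← Finset.prod_subset hsub]
  · refine Finset.prod_congr rfl fun i hi => ?_
    change lap (if i ∈ s then t i else Set.univ) = _
    rw [if_pos hi]
  · intro i _ hi
    change lap (if i ∈ s then t i else Set.univ) = _
    rw [if_neg hi]
    exact lap_univ

end Pool.Agent.H84.GP174
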