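import Pool.Agent.H174.GP.StD

/-!
Subtask of project GP (helper174): the formula for `cnt` in terms of `a2` (`S_cnta2`).
-/

open MeasureTheory ProbabilityTheory Finset

namespace Pool.Agent.H84.GP174

open Pool.Agent.H174.GP

/-- The set counted by `Nd`. -/
def NS (d m : ℕ) : Set (Fin d → ℕ) := {γ : Fin d → ℕ | ∑ i : Fin d, ((i : ℕ) + 1) * γ i = m}

theorem NS_fin (d m : ℕ) : (NS d m).Finite := by
  apply (Set.finite_Iic (fun _ : Fin d => m)).subset
  intro γ hγ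
  rw [Set.mem_Iic]
  intro i
  have h : ∑ i : Fin d, ((i : ℕ) + 1) * γ i = m := hγ
  have h1 : ((i : ℕ) + 1) * γ i ≤ ∑ i : Fin d, ((i : ℕ) + 1) * γ i :=
    Finset.single_le_sum (f := fun i : Fin d => ((i : ℕ) + 1) * γ i) (fun _ _ => Nat.zero_le _)
      (mem_univ i)
  rw [h] at h1
  have h2 : γ i ≤ ((i : ℕ) + 1) * γ i := Nat.le_mul_of_pos_left _ (Nat.succ_pos _)
  exact h2.trans h1

theorem cnt_eq (d T : ℕ) : cnt d (d ^ 2 + T) = ∑ j ∈ range (T + 1), Nd d j * Nd d (T - j) := by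
  classical
  have h1 : {gh : (Fin d → ℕ) × (Fin d → ℕ) |
      d ^ 2 + ∑ i : Fin d, ((i : ℕ) + 1) * (gh.1 i + gh.2 i) = d ^ 2 + T} =
      (((range (T + 1)).biUnion fun j => (NS_fin d j).toFinset ×ˢ (NS_fin d (T - j)).toFinset :
        Finset ((Fin d → ℕ) × (Fin d → ℕ))) : Set ((Fin d → ℕ) × (Fin d → ℕ))) := by
    ext ⟨g, h⟩
    simp only [Set.mem_ofPred_eq, coe_biUnion, Set.mem_iUnion, mem_coe, mem_product,
      Set.Finite.mem_toFinset, mem_range, exists_prop, mul_add, sum_add_distrib]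
    constructor
    · intro hs
      refine ⟨∑ i : Fin d, ((i : ℕ) + 1) * g i, ?_, rfl, ?_⟩
      · simp only [add_mul, one_mul, sum_add_distrib] at hs ⊢
        omega
      · change ∑ i : Fin d, ((i : ℕ) + 1) * h i = T - ∑ i : Fin d, ((i : ℕ) + 1) * g i
        omega
    · rintro ⟨j, hj, h2, h3⟩
      have h4 : ∑ i : Fin d, ((i : ℕ) + 1) * g i = j := h2
      have h5 : ∑ i : Fin d, ((i : ℕ) + 1) * h i = T - j := h3
      omega
  unfold cnt
  rw [h1, Set.ncard_coe_finset, card_biUnion]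
  · apply sum_congr rfl
    intro j _
    rw [card_product]
    have h2 : ∀ m, Nd d m = #(NS_fin d m).toFinset := fun m =>
      Set.ncard_eq_toFinset_card (NS d m) (NS_fin d m)
    rw [h2, h2]
  · intro j _ j' _ hjj
    rw [Function.onFun, Finset.disjoint_left]
    rintro ⟨g, h⟩ hg hg'
    rw [mem_product, Set.Finite.mem_toFinset] at hg hg'
    have h4 : ∑ i : Fin d, ((i : ℕ) + 1) * g i = j := hg.1
    have h5 : ∑ i : Fin d, ((i : ℕ) + 1) * g i = j' := hg'.1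
    exact hjj (h4.symm.trans h5)

theorem gp_cnta2 : Pool.Agent.H174.GP.S_cnta2 := by
  intro d N σ hσ hd
  obtain ⟨T, rfl⟩ := Nat.exists_eq_add_of_le hd
  have hT : ((d ^ 2 + T : ℕ) : ℤ) - (d : ℤ) ^ 2 = (T : ℤ) := by
    push_cast
    ring
  have hT' : ((d ^ 2 + T : ℕ) : ℝ) - (d : ℝ) ^ 2 = (T : ℝ) := by
    push_cast
    ring
  rw [hT, hT', cnt_eq]
  have hprod : ∏ j ∈ Finset.Icc 1 d, (1 - Real.exp (-(2 * (σ / 2) * j))) =
      ∏ j ∈ Finset.Icc 1 d, (1 - Real.exp (-(σ * j))) := by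
    apply prod_congr rfl
    intro j _
    rw [mul_div_cancel₀ _ (two_ne_zero)]
  have haa : ∀ m : ℕ, aa d (σ / 2) m = (Nd d m : ℝ) * Real.exp (-(σ * m)) *
      ∏ j ∈ Finset.Icc 1 d, (1 - Real.exp (-(σ * j))) := by
    intro m
    unfold aa
    rw [if_pos (Int.natCast_nonneg m), hprod, Int.toNat_natCast]
    rw [mul_div_cancel₀ _ (two_ne_zero)]
    push_cast
    rfl
  obtain ⟨Pr, hPr⟩ : ∃ Pr, Pr = ∏ j ∈ Finset.Icc 1 d, (1 - Real.exp (-(σ * j))) := ⟨_, rfl⟩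
  have hPr0 : Pr ≠ 0 := by
    rw [hPr, prod_ne_zero_iff]
    intro j hj
    rw [mem_Icc] at hj
    have h1 : 0 < σ * j := mul_pos hσ (by exact_mod_cast hj.1)
    have h2 : Real.exp (-(σ * j)) < 1 := Real.exp_lt_one_iff.2 (by linarith)
    linarith
  have hZ : Zf d σ = Pr⁻¹ := by
    unfold Zf
    rw [hPr, ← prod_inv_distrib]
    exact prod_congr rfl fun j _ => one_div _
  have ha2 : a2 d σ (T : ℤ) = ∑ j ∈ range (T + 1), ((Nd d j * Nd d (T - j) : ℕ) : ℝ) *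
      (Real.exp (-(σ * T)) * Pr ^ 2) := by
    unfold a2
    rw [if_pos (Int.natCast_nonneg T), Int.toNat_natCast]
    apply sum_congr rfl
    intro j hj
    rw [mem_range] at hj
    have h1 : (T : ℤ) - (j : ℤ) = ((T - j : ℕ) : ℤ) := by
      rw [Nat.cast_sub (by omega)]
    have h2 : Real.exp (-(σ * T)) = Real.exp (-(σ * j)) * Real.exp (-(σ * ((T - j : ℕ) : ℝ))) := by
      rw [← Real.exp_add]
      congr 1
      rw [Nat.cast_sub (by omega)]
      ring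
    rw [h1, haa, haa, ← hPr, h2]
    push_cast
    ring
  rw [ha2, ← sum_mul, hZ]
  have h3 : Real.exp (σ * T) * Real.exp (-(σ * T)) = 1 := by
    rw [← Real.exp_add, add_neg_cancel, Real.exp_zero]
  have h4 : Pr⁻¹ ^ 2 * Pr ^ 2 = 1 := by
    rw [← mul_pow, inv_mul_cancel₀ hPr0, one_pow]
  push_cast
  linear_combination -(∑ j ∈ range (T + 1), (Nd d j : ℝ) * (Nd d (T - j) : ℝ)) *
    (Pr⁻¹ ^ 2 * Pr ^ 2) * h3 - (∑ j ∈ range (T + 1), (Nd d j : ℝ) * (Nd d (T - j) : ℝ)) * h4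

end Pool.Agent.H84.GP174
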